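import Pool.Agent.H17.ND.SSG

set_option autoImplicit false
set_option linter.unusedSimpArgs false

namespace Pool.Agent.H17.ND

open MvPolynomial SC Pool.Agent.H27.LV Pool.Agent.H84.SM Pool.Agent.H84.ND Pool.Agent.H92.ND

/-- forms as sections of weight 0 -/
theorem h17_sec_form {k : Type} [Field k] (G : A3 k) (d r : ℕ) (f : A3 k) (hf : f.IsHomogeneous r) :
    IsSec G d 0 (r : ℤ) 0 (Polynomial.C (aeval (xa (k := k)) f)) := by
  refine ⟨h17_Inv_C (h17_dv_form f), ⟨r, by push_cast; ring, h17_BHN_C (h17_BH_form hf)⟩, ?_⟩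
  intro l
  rw [pow_zero]
  exact one_dvd _

theorem h17_sec_pow (hSMU : Pool.Agent.H92.ND.T_SMU) {k : Type} [Field k] (G : A3 k) (d i M : ℕ)
    (t : ℤ) (c : A2 k) (h : IsSec G d i t M (Polynomial.C c)) (j : ℕ) :
    IsSec G d (j * i) (j * t) (j * M) (Polynomial.C (c ^ j)) := by
  induction j with
  | zero =>
    have h1 := h17_sec_form G d 0 (1 : A3 k) (isHomogeneous_one _ _)
    simpa using h1
  | succ j ih =>
    have h1 := hSMU k G d (j * i) i (j * M) M (j * t) t (c ^ j) c ih h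
    have e1 : (j + 1) * i = j * i + i := by ring
    have e2 : (j + 1) * M = j * M + M := by ring
    have e3 : ((j + 1 : ℕ) : ℤ) * t = j * t + t := by push_cast; ring
    rw [e1, e2, e3, pow_succ]
    exact h1

theorem pf_SEE (hSMU : Pool.Agent.H92.ND.T_SMU) (hSNV : Pool.Agent.H92.ND.T_SNV)
    (hSSG : Pool.Agent.H92.ND.T_SSG) : Pool.Agent.H92.ND.T_SEE := by
  intro k _ G d hG ρ η r i j l R D h φ hR hRG hh hφ hj
  have h1 := h17_sec_form G d r φ hφ
  have h2 := h17_sec_form G d η h hh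
  have h3 := hSSG k G d hG ρ R D hR hRG
  have h4 := hSNV k G d hG 0 1 (ya l) (h17_BH_ya l)
  have h5 := hSMU k G d _ _ _ _ _ _ _ _ h2 h3
  have h6 := h17_sec_pow hSMU G d _ _ _ _ h5 j
  have h7 := h17_sec_pow hSMU G d _ _ _ _ h4 (i - j)
  have h8 := hSMU k G d _ _ _ _ _ _ _ _ h1 h6
  have h9 := hSMU k G d _ _ _ _ _ _ _ _ h8 h7
  have e1 : 0 + j * (0 + 1) + (i - j) * 1 = i := by omega
  have e2 : (r : ℤ) + j * ((η : ℤ) + ((ρ : ℤ) + 3 - d)) + ((i - j : ℕ) : ℤ) * (((0 : ℕ) : ℤ) + ((1 : ℕ) : ℤ)) =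
      (r : ℤ) + j * ((η : ℤ) + ρ + 3 - d) + ((i : ℤ) - j) := by
    rw [Nat.cast_sub hj]; push_cast; ring
  rw [e1, e2] at h9
  exact h9

end Pool.Agent.H17.ND
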