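import Pool.Agent.H92.ND.TargetsB

set_option autoImplicit false
set_option linter.unusedSimpArgs false

namespace Pool.Agent.H17.ND

open MvPolynomial SC Pool.Agent.H27.LV Pool.Agent.H84.SM Pool.Agent.H84.ND Pool.Agent.H92.ND

theorem h17_BH_xa {k : Type} [Field k] (i : Fin 3) : BH 1 0 (xa (k := k) i) := by
  constructor
  · exact isWeightedHomogeneous_X k wx (Sum.inl i)
  · exact isWeightedHomogeneous_X k wy (Sum.inl i)

theorem h17_BH_ya {k : Type} [Field k] (i : Fin 3) : BH 0 1 (ya (k := k) i) := by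
  constructor
  · exact isWeightedHomogeneous_X k wx (Sum.inr i)
  · exact isWeightedHomogeneous_X k wy (Sum.inr i)

theorem h17_BH_mul {k : Type} [Field k] {e e' i i' : ℕ} {a b : A2 k} (h : BH e i a)
    (h' : BH e' i' b) : BH (e + e') (i + i') (a * b) :=
  ⟨h.1.mul h'.1, h.2.mul h'.2⟩

theorem h17_BH_add {k : Type} [Field k] {e i : ℕ} {a b : A2 k} (h : BH e i a)
    (h' : BH e i b) : BH e i (a + b) :=
  ⟨h.1.add h'.1, h.2.add h'.2⟩

theorem h17_BH_sub {k : Type} [Field k] {e i : ℕ} {a b : A2 k} (h : BH e i a)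
    (h' : BH e i b) : BH e i (a - b) := by
  have h1 : a - b = a + C (-1 : k) * b := by rw [C_neg, C_1]; ring
  rw [h1]
  refine h17_BH_add h ?_
  have h2 : BH 0 0 (C (-1 : k) : A2 k) :=
    ⟨isWeightedHomogeneous_C wx _, isWeightedHomogeneous_C wy _⟩
  have h3 := h17_BH_mul h2 h'
  rwa [zero_add, zero_add] at h3

/-- a form of degree `r` in `x` -/
theorem h17_BH_form {k : Type} [Field k] {r : ℕ} {f : MvPolynomial (Fin 3) k}
    (hf : f.IsHomogeneous r) : BH r 0 (aeval (xa (k := k)) f) := by
  have h1 : aeval (xa (k := k)) f = rename Sum.inl f := by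
    have h2 := aeval_rename (R := k) Sum.inl (X : Fin 3 ⊕ Fin 3 → A2 k) f
    rw [aeval_X_left_apply] at h2
    exact h2.symm
  rw [h1]
  constructor
  · rw [IsWeightedHomogeneous]
    intro d hd
    have h2 := coeff_rename_ne_zero Sum.inl f d hd
    obtain ⟨u, hu, hu'⟩ := h2
    rw [← hu]
    have h3 := hf hu'
    rw [← h3]
    rw [Finsupp.weight_apply, Finsupp.weight_apply, Finsupp.sum_mapDomain_index
      (by intro; simp) (by intro b m n; rw [add_smul])]
    rfl
  · rw [IsWeightedHomogeneous]
    intro d hd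
    have h2 := coeff_rename_ne_zero Sum.inl f d hd
    obtain ⟨u, hu, hu'⟩ := h2
    rw [← hu]
    rw [Finsupp.weight_apply, Finsupp.sum_mapDomain_index
      (by intro; simp) (by intro b m n; rw [add_smul])]
    simp [wy, Finsupp.sum]

theorem h17_dv_form {k : Type} [Field k] (f : MvPolynomial (Fin 3) k) :
    dv (aeval (xa (k := k)) f) = 0 := by
  induction f using MvPolynomial.induction_on with
  | C a => rw [aeval_C]; exact Derivation.map_algebraMap _ _
  | add p q hp hq => rw [map_add, map_add, hp, hq, add_zero]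
  | mul_X p i hp =>
    rw [map_mul, Derivation.leibniz, hp, aeval_X, smul_zero, add_zero]
    have h1 : dv (xa (k := k) i) = 0 := by
      rw [xa, dv, mkDerivation_X]; rfl
    rw [h1, smul_zero]

theorem h17_dv_ya {k : Type} [Field k] (i : Fin 3) : dv (ya (k := k) i) = xa i := by
  rw [ya, dv, mkDerivation_X]; rfl

theorem h17_dv_xa {k : Type} [Field k] (i : Fin 3) : dv (xa (k := k) i) = 0 := by
  rw [xa, dv, mkDerivation_X]; rfl

theorem h17_BHN_C {k : Type} [Field k] {e n : ℕ} {c : A2 k} (h : BH e n c) :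
    BHN e n (Polynomial.C c) := by
  intro j
  rcases Nat.eq_zero_or_pos j with h0 | h0
  · subst h0
    refine ⟨fun _ => ?_, fun h1 => absurd h1 (by omega)⟩
    rw [Polynomial.coeff_C_zero]
    simpa using h
  · have h2 : (Polynomial.C c).coeff j = 0 := Polynomial.coeff_C_of_ne_zero (by omega)
    rw [h2]
    exact ⟨fun _ => ⟨isWeightedHomogeneous_zero k _ _, isWeightedHomogeneous_zero k _ _⟩,
      fun _ => rfl⟩

theorem h17_Inv_C {k : Type} [Field k] {c : A2 k} (h : dv c = 0) : Inv (Polynomial.C c) := by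
  intro j
  rw [Polynomial.coeff_C]
  split_ifs
  · exact h
  · exact map_zero _

theorem h17_Psi_C {k : Type} [Field k] (G : MvPolynomial (Fin 3) k) (d : ℕ) (l : Fin 3) (c : A2 k) :
    Psi G d l (Polynomial.C c) = Polynomial.C (aeval (Sum.elim xb (chy G l)) c) := by
  rw [Psi, Polynomial.coe_eval₂RingHom, Polynomial.eval₂_C]
  rfl

theorem pf_SSG : Pool.Agent.H92.ND.T_SSG := by
  intro k _ G d hG ρ R D hR hRG
  refine ⟨h17_Inv_C ?_, ⟨ρ + 2, by push_cast; ring, h17_BHN_C ?_⟩, ?_⟩
  · rw [sgA, dt, dp, map_sum]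
    simp only [cr]
    simp only [Derivation.leibniz, map_sub, h17_dv_form, h17_dv_xa, h17_dv_ya, smul_eq_mul]
    rw [Fin.sum_univ_three]
    simp only [Fin.isValue, show (1 : Fin 3) + 1 = 2 from rfl, show (1 : Fin 3) + 2 = 0 from rfl,
      show (2 : Fin 3) + 1 = 0 from rfl, show (2 : Fin 3) + 2 = 1 from rfl,
      show (0 : Fin 3) + 1 = 1 from rfl, show (0 : Fin 3) + 2 = 2 from rfl]
    ring
  · rw [sgA, dt, dp]
    have h1 : ∀ i : Fin 3, BH (ρ + 2) 1 (aeval (xa (k := k)) (R i) * cr (xa (k := k)) ya i) := by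
      intro i
      have h2 : BH 1 1 (cr (xa (k := k)) ya i) := by
        rw [cr]
        refine h17_BH_sub ?_ ?_
        · have := h17_BH_mul (h17_BH_xa (k := k) (i + 1)) (h17_BH_ya (k := k) (i + 2))
          simpa using this
        · have := h17_BH_mul (h17_BH_xa (k := k) (i + 2)) (h17_BH_ya (k := k) (i + 1))
          simpa using this
      have h3 := h17_BH_mul (h17_BH_form (hR i)) h2
      rw [zero_add] at h3
      exact h3
    rw [Fin.sum_univ_three]
    exact h17_BH_add (h17_BH_add (h1 0) (h1 1)) (h1 2)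
  · intro l
    rw [h17_Psi_C, pow_one, gp]
    refine map_dvd Polynomial.C ?_
    have hE : (d : B2 k) * aeval (xb (k := k)) G = ∑ i, xb i * gr G xb i := by
      have h1 := hG.sum_X_mul_pderiv
      have h2 := congrArg (aeval (xb (k := k))) h1
      rw [map_sum, nsmul_eq_mul, map_mul, map_natCast] at h2
      rw [← h2]
      refine Finset.sum_congr rfl fun i _ => ?_
      rw [map_mul, aeval_X, gr]
    have hR2 : (∑ i, aeval (xb (k := k)) (R i) * gr G xb i) = aeval xb D * aeval xb G := by
      have h2 := congrArg (aeval (xb (k := k))) hRG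
      rw [dp, map_sum, map_mul] at h2
      rw [← h2]
      refine Finset.sum_congr rfl fun i _ => ?_
      rw [map_mul, gr, g3]
    have hs : aeval (Sum.elim (xb (k := k)) (chy G l)) (sgA R) =
        ∑ i, aeval (xb (k := k)) (R i) * (xb (i + 1) * chy G l (i + 2) - xb (i + 2) * chy G l (i + 1)) := by
      rw [sgA, dt, dp, map_sum]
      refine Finset.sum_congr rfl fun i _ => ?_
      rw [map_mul, cr, map_sub, map_mul, map_mul]
      have e1 : ∀ f : MvPolynomial (Fin 3) k, aeval (Sum.elim (xb (k := k)) (chy G l))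
          (aeval (xa (k := k)) f) = aeval xb f := by
        intro f
        rw [← AlgHom.comp_apply, comp_aeval]
        congr 2
        funext i
        rw [xa, aeval_X]; rfl
      have e2 : ∀ i, aeval (Sum.elim (xb (k := k)) (chy G l)) (xa (k := k) i) = xb i := by
        intro i; rw [xa, aeval_X]; rfl
      have e3 : ∀ i, aeval (Sum.elim (xb (k := k)) (chy G l)) (ya (k := k) i) = chy G l i := by
        intro i; rw [ya, aeval_X]; rfl
      rw [e1, e2, e2, e3, e3]
    rw [hs]
    rw [Fin.sum_univ_three] at hE hR2 ⊢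
    fin_cases l
    · refine ⟨aeval xb D * (xb 1 * qb 1 - xb 2 * qb 0) - (d : B2 k) * (aeval xb (R 1) * qb 1 -
        aeval xb (R 2) * qb 0), ?_⟩
      simp only [chy, Fin.isValue, Fin.zero_eta, Fin.mk_one, Fin.reduceFinMk, show (1 : Fin 3) + 1 = 2 from rfl,
        show (1 : Fin 3) + 2 = 0 from rfl,
        show (2 : Fin 3) + 1 = 0 from rfl, show (2 : Fin 3) + 2 = 1 from rfl,
        show (0 : Fin 3) + 1 = 1 from rfl, show (0 : Fin 3) + 2 = 2 from rfl, if_true, if_false,
        show ((1 : Fin 3) = 0) = False from by decide, show ((2 : Fin 3) = 0) = False from by decide,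
        show ((2 : Fin 3) = 1) = False from by decide, show ((0 : Fin 3) = 1) = False from by decide,
        show ((0 : Fin 3) = 2) = False from by decide, show ((1 : Fin 3) = 2) = False from by decide]
      linear_combination (xb 1 * qb 1 - xb 2 * qb 0) * hR2 + (aeval xb (R 1) * qb 1 -
        aeval xb (R 2) * qb 0) * hE
    · refine ⟨aeval xb D * (xb 2 * qb 1 - xb 0 * qb 0) - (d : B2 k) * (aeval xb (R 2) * qb 1 -
        aeval xb (R 0) * qb 0), ?_⟩
      simp only [chy, Fin.isValue, Fin.zero_eta, Fin.mk_one, Fin.reduceFinMk, show (1 : Fin 3) + 1 = 2 from rfl,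
        show (1 : Fin 3) + 2 = 0 from rfl,
        show (2 : Fin 3) + 1 = 0 from rfl, show (2 : Fin 3) + 2 = 1 from rfl,
        show (0 : Fin 3) + 1 = 1 from rfl, show (0 : Fin 3) + 2 = 2 from rfl, if_true, if_false,
        show ((1 : Fin 3) = 0) = False from by decide, show ((2 : Fin 3) = 0) = False from by decide,
        show ((2 : Fin 3) = 1) = False from by decide, show ((0 : Fin 3) = 1) = False from by decide,
        show ((0 : Fin 3) = 2) = False from by decide, show ((1 : Fin 3) = 2) = False from by decide]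
      linear_combination (xb 2 * qb 1 - xb 0 * qb 0) * hR2 + (aeval xb (R 2) * qb 1 -
        aeval xb (R 0) * qb 0) * hE
    · refine ⟨aeval xb D * (xb 0 * qb 1 - xb 1 * qb 0) - (d : B2 k) * (aeval xb (R 0) * qb 1 -
        aeval xb (R 1) * qb 0), ?_⟩
      simp only [chy, Fin.isValue, Fin.zero_eta, Fin.mk_one, Fin.reduceFinMk, show (1 : Fin 3) + 1 = 2 from rfl,
        show (1 : Fin 3) + 2 = 0 from rfl,
        show (2 : Fin 3) + 1 = 0 from rfl, show (2 : Fin 3) + 2 = 1 from rfl,
        show (0 : Fin 3) + 1 = 1 from rfl, show (0 : Fin 3) + 2 = 2 from rfl, if_true, if_false,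
        show ((1 : Fin 3) = 0) = False from by decide, show ((2 : Fin 3) = 0) = False from by decide,
        show ((2 : Fin 3) = 1) = False from by decide, show ((0 : Fin 3) = 1) = False from by decide,
        show ((0 : Fin 3) = 2) = False from by decide, show ((1 : Fin 3) = 2) = False from by decide]
      linear_combination (xb 0 * qb 1 - xb 1 * qb 0) * hR2 + (aeval xb (R 0) * qb 1 -
        aeval xb (R 1) * qb 0) * hE

end Pool.Agent.H17.ND
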